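import Mathlib

/-!
# The maximum degree of a tree with neighbour-locating chromatic number `k`

Every tree `T` with neighbour-locating chromatic number `k ≥ 2` satisfies `Δ(T) ≤ (k - 1)²`.
-/

set_option autoImplicit false

namespace Pool.Agent.Results.MP_16ddc9_co.TreeDegree

variable {V : Type} {k : ℕ}

/-- The set of the colours of the neighbours of `v`. -/
def nbColors (G : SimpleGraph V) (c : V → Fin k) (v : V) : Set (Fin k) :=
  {i | ∃ w, G.Adj v w ∧ c w = i}

/-- Neighbour-locating `k`-colourings: all `k` colour classes are nonempty and independent, and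
distinct vertices of the same colour have different sets of colours among their neighbours. -/
def IsNL (G : SimpleGraph V) (c : V → Fin k) : Prop :=
  Function.Surjective c ∧ (∀ u v, G.Adj u v → c u ≠ c v) ∧
    ∀ u v, u ≠ v → c u = c v → nbColors G c u ≠ nbColors G c v

/-- The neighbour-locating chromatic number. -/
noncomputable def chiNL (G : SimpleGraph V) : ℕ := sInf {k : ℕ | ∃ c : V → Fin k, IsNL G c}

section Core

open Classical

variable [Fintype V] (G : SimpleGraph V) (c : V → Fin k)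

/-- The set of the colours of the neighbours, as a finite set. -/
noncomputable def S (x : V) : Finset (Fin k) := (G.neighborFinset x).image c

lemma mem_S (x : V) (i : Fin k) : i ∈ S G c x ↔ ∃ w, G.Adj x w ∧ c w = i := by
  unfold S
  rw [Finset.mem_image]
  simp only [SimpleGraph.mem_neighborFinset]

lemma S_card_le (x : V) : (S G c x).card ≤ G.degree x := Finset.card_image_le

lemma S_card_lt (x a b : V) (ha : G.Adj x a) (hb : G.Adj x b) (hab : a ≠ b) (hc : c a = c b) :
    (S G c x).card + 1 ≤ G.degree x := by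
  have h1 : S G c x = ((G.neighborFinset x).erase a).image c := by
    ext i
    rw [mem_S, Finset.mem_image]
    constructor
    · rintro ⟨w, hw, rfl⟩
      by_cases hwa : w = a
      · exact ⟨b, Finset.mem_erase.mpr ⟨hab.symm, by simpa using hb⟩, by rw [hwa, hc]⟩
      · exact ⟨w, Finset.mem_erase.mpr ⟨hwa, by simpa using hw⟩, rfl⟩
    · rintro ⟨w, hw, rfl⟩
      rw [Finset.mem_erase, SimpleGraph.mem_neighborFinset] at hw
      exact ⟨w, hw.2, rfl⟩
  have ha' : a ∈ G.neighborFinset x := by simpa using ha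
  have h2 := Finset.card_erase_of_mem ha'
  have h3 : 0 < (G.neighborFinset x).card := Finset.card_pos.mpr ⟨a, ha'⟩
  rw [h1]
  have h4 : (((G.neighborFinset x).erase a).image c).card ≤ ((G.neighborFinset x).erase a).card :=
    Finset.card_image_le
  rw [← SimpleGraph.card_neighborFinset_eq_degree]
  omega

/-- Indicator function of a finite set. -/
noncomputable def ind (A : Finset V) (x : V) : ℕ := if x ∈ A then 1 else 0

lemma sum_ind (A : Finset V) (v : V) (hv : v ∉ A) :
    ∑ x ∈ Finset.univ.erase v, ind A x = A.card := by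
  unfold ind
  rw [← Finset.sum_filter, Finset.sum_const, smul_eq_mul, mul_one]
  congr 1
  ext x
  simp only [Finset.mem_filter, Finset.mem_erase, Finset.mem_univ, and_true]
  constructor
  · exact fun h => h.2
  · exact fun h => ⟨fun e => hv (e ▸ h), h⟩

lemma pairs_card (c0 : Fin k) :
    ((Finset.univ : Finset (Fin k × Fin k)).filter fun p => p.1 ≠ c0 ∧ p.2 ≠ p.1).card =
      (k - 1) * (k - 1) := by
  have h1 : ((Finset.univ : Finset (Fin k × Fin k)).filter fun p => p.1 ≠ c0 ∧ p.2 ≠ p.1) =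
      (Finset.univ.erase c0).biUnion fun y => (Finset.univ.erase y).image fun z => (y, z) := by
    ext ⟨a, b⟩
    simp only [Finset.mem_filter, Finset.mem_univ, true_and, Finset.mem_biUnion,
      Finset.mem_erase, and_true, Finset.mem_image, Prod.mk.injEq]
    constructor
    · rintro ⟨h1, h2⟩
      exact ⟨a, h1, b, h2, rfl, rfl⟩
    · rintro ⟨y, hy, z, hz, rfl, rfl⟩
      exact ⟨hy, hz⟩
  rw [h1, Finset.card_biUnion]
  · rw [Finset.sum_congr rfl (fun y _ => Finset.card_image_of_injective _
      (fun z z' h => (Prod.mk.injEq _ _ _ _ ▸ h).2))]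
    rw [Finset.sum_congr rfl (fun y _ => Finset.card_erase_of_mem (Finset.mem_univ y))]
    rw [Finset.sum_const, Finset.card_erase_of_mem (Finset.mem_univ _)]
    simp
  · intro y _ y' _ hyy'
    rw [Function.onFun, Finset.disjoint_left]
    intro p hp hp'
    rw [Finset.mem_image] at hp hp'
    obtain ⟨z, -, rfl⟩ := hp
    obtain ⟨z', -, h⟩ := hp'
    exact hyy' (Prod.mk.inj h).1.symm

lemma pairs_card' (c0 : Fin k) :
    ((Finset.univ : Finset (Fin k × Fin k)).filter
      fun p => p.1 ≠ c0 ∧ p.2 ≠ c0 ∧ p.2 ≠ p.1).card = (k - 1) * (k - 2) := by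
  have h1 : ((Finset.univ : Finset (Fin k × Fin k)).filter
      fun p => p.1 ≠ c0 ∧ p.2 ≠ c0 ∧ p.2 ≠ p.1) =
      (Finset.univ.erase c0).biUnion fun y =>
        ((Finset.univ.erase c0).erase y).image fun z => (y, z) := by
    ext ⟨a, b⟩
    simp only [Finset.mem_filter, Finset.mem_univ, true_and, Finset.mem_biUnion,
      Finset.mem_erase, and_true, Finset.mem_image, Prod.mk.injEq]
    constructor
    · rintro ⟨h1, h2, h3⟩
      exact ⟨a, h1, b, ⟨h3, h2⟩, rfl, rfl⟩
    · rintro ⟨y, hy, z, hz, rfl, rfl⟩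
      exact ⟨hy, hz.2, hz.1⟩
  rw [h1, Finset.card_biUnion]
  · rw [Finset.sum_congr rfl (fun y _ => Finset.card_image_of_injective _
      (fun z z' h => (Prod.mk.injEq _ _ _ _ ▸ h).2))]
    rw [Finset.sum_congr rfl (fun y hy => Finset.card_erase_of_mem hy)]
    rw [Finset.sum_const, Finset.card_erase_of_mem (Finset.mem_univ _)]
    simp only [Finset.card_univ, Fintype.card_fin, smul_eq_mul]
    congr 1
  · intro y _ y' _ hyy'
    rw [Function.onFun, Finset.disjoint_left]
    intro p hp hp'
    rw [Finset.mem_image] at hp hp'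
    obtain ⟨z, -, rfl⟩ := hp
    obtain ⟨z', -, h⟩ := hp'
    exact hyy' (Prod.mk.inj h).1.symm

/-- The degree bound for any neighbour-locating colouring of a tree. -/
lemma core (hG : G.IsTree) [Nontrivial V] (hp : ∀ u v, G.Adj u v → c u ≠ c v)
    (hnl : ∀ u v, u ≠ v → c u = c v → S G c u ≠ S G c v) (v : V) :
    G.degree v ≤ (k - 1) * (k - 1) := by
  have hinj : ∀ x y, c x = c y → S G c x = S G c y → x = y := by
    intro x y h1 h2
    by_contra h
    exact hnl x y h h1 h2
  have hcS : ∀ x, c x ∉ S G c x := by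
    intro x hx
    rw [mem_S] at hx
    obtain ⟨w, hw, h⟩ := hx
    exact hp x w hw h.symm
  obtain ⟨c0, hc0⟩ : ∃ c0, c0 = c v := ⟨_, rfl⟩
  have hdeg1 : ∀ x, 1 ≤ G.degree x := fun x =>
    hG.connected.preconnected.degree_pos_of_nontrivial x
  -- the sets of vertices used
  obtain ⟨N, hN⟩ : ∃ N : Finset V, N = G.neighborFinset v := ⟨_, rfl⟩
  obtain ⟨P, hP⟩ : ∃ P : Finset V, P = Finset.univ.filter fun x =>
    c0 ∈ S G c x ∧ (S G c x).card ≤ 2 := ⟨_, rfl⟩
  obtain ⟨H, hH⟩ : ∃ H : Finset V, H = N.filter fun x => 3 ≤ (S G c x).card := ⟨_, rfl⟩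
  obtain ⟨L, hL⟩ : ∃ L : Finset V, L = Finset.univ.filter fun x =>
    x ≠ v ∧ G.degree x = 1 := ⟨_, rfl⟩
  obtain ⟨LB, hLB⟩ : ∃ LB : Finset V, LB = L.filter fun x => c x = c0 := ⟨_, rfl⟩
  obtain ⟨LA, hLA⟩ : ∃ LA : Finset V, LA = L.filter fun x => c x ≠ c0 ∧ c0 ∈ S G c x :=
    ⟨_, rfl⟩
  obtain ⟨LC, hLC⟩ : ∃ LC : Finset V, LC = L.filter fun x => c x ≠ c0 ∧ c0 ∉ S G c x :=
    ⟨_, rfl⟩
  obtain ⟨W, hW⟩ : ∃ W : Finset V, W = Finset.univ.filter fun w => ∃ l ∈ LB, G.Adj w l :=
    ⟨_, rfl⟩
  obtain ⟨B1, hB1⟩ : ∃ B1 : Finset V, B1 = W.filter fun w =>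
    w ∈ N ∧ (S G c w).card ≤ 1 := ⟨_, rfl⟩
  obtain ⟨B2, hB2⟩ : ∃ B2 : Finset V, B2 = W.filter fun w =>
    w ∈ N ∧ (S G c w).card = 2 := ⟨_, rfl⟩
  obtain ⟨B3, hB3⟩ : ∃ B3 : Finset V, B3 = W.filter fun w => 3 ≤ (S G c w).card := ⟨_, rfl⟩
  obtain ⟨B4, hB4⟩ : ∃ B4 : Finset V, B4 = W.filter fun w =>
    w ∉ N ∧ (S G c w).card ≤ 2 := ⟨_, rfl⟩
  have hmN : ∀ x, x ∈ N ↔ G.Adj v x := by intro x; rw [hN, SimpleGraph.mem_neighborFinset]
  have hvS : c0 ∉ S G c v := by rw [hc0]; exact hcS v
  have hmL : ∀ x, x ∈ L ↔ x ≠ v ∧ G.degree x = 1 := by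
    intro x; rw [hL, Finset.mem_filter]; simp only [Finset.mem_univ, true_and]
  have hmLB : ∀ x, x ∈ LB ↔ (x ≠ v ∧ G.degree x = 1) ∧ c x = c0 := by
    intro x; rw [hLB, Finset.mem_filter, hmL]
  have hmW : ∀ w, w ∈ W ↔ ∃ l ∈ LB, G.Adj w l := by
    intro w; rw [hW, Finset.mem_filter]; simp only [Finset.mem_univ, true_and]
  -- a vertex of `W` sees the colour `c0` and is different from `v`
  have hWS : ∀ w ∈ W, c0 ∈ S G c w := by
    intro w hw
    obtain ⟨l, hl, hwl⟩ := (hmW w).mp hw
    rw [mem_S]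
    exact ⟨l, hwl, ((hmLB l).mp hl).2⟩
  have hWv : ∀ w ∈ W, w ≠ v := by
    intro w hw e
    rw [e] at hw
    exact hvS (hWS v hw)
  have hWN : ∀ w ∈ W, w ∈ N → (S G c w).card + 1 ≤ G.degree w := by
    intro w hw hwN
    obtain ⟨l, hl, hwl⟩ := (hmW w).mp hw
    have h1 := (hmLB l).mp hl
    exact S_card_lt G c w l v hwl ((hmN w).mp hwN).symm h1.1.1 (by rw [h1.2, hc0])
  -- leaves have exactly one neighbour
  have hleaf : ∀ x, G.degree x = 1 → ∀ a b, G.Adj x a → G.Adj x b → a = b := by
    intro x hx a b ha hb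
    rw [← SimpleGraph.card_neighborFinset_eq_degree, Finset.card_eq_one] at hx
    obtain ⟨y, hy⟩ := hx
    have h1 : a ∈ G.neighborFinset x := by simpa using ha
    have h2 : b ∈ G.neighborFinset x := by simpa using hb
    rw [hy, Finset.mem_singleton] at h1 h2
    rw [h1, h2]
  have hleafS : ∀ x a, G.degree x = 1 → G.Adj x a → S G c x = {c a} := by
    intro x a hx ha
    ext i
    rw [mem_S, Finset.mem_singleton]
    constructor
    · rintro ⟨w, hw, rfl⟩
      rw [hleaf x hx w a hw ha]
    · rintro rfl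
      exact ⟨a, ha, rfl⟩
  have hexn : ∀ x, ∃ a, G.Adj x a := by
    intro x
    have h1 : 0 < (G.neighborFinset x).card := by
      rw [SimpleGraph.card_neighborFinset_eq_degree]
      exact hdeg1 x
    obtain ⟨a, ha⟩ := Finset.card_pos.mp h1
    exact ⟨a, by simpa using ha⟩
  choose nb hnb using hexn
  -- (1) the number of leaves coloured `c0`
  have e1 : LB.card ≤ W.card := by
    apply Finset.card_le_card_of_injOn nb
    · intro l hl
      rw [Finset.mem_coe] at hl ⊢
      rw [hmW]
      exact ⟨l, hl, (hnb l).symm⟩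
    · intro l hl l' hl' h
      rw [Finset.mem_coe, hmLB] at hl hl'
      apply hinj l l' (by rw [hl.2, hl'.2])
      rw [hleafS l (nb l) hl.1.2 (hnb l), hleafS l' (nb l') hl'.1.2 (hnb l'), h]
  -- (2) the vertices of `W`
  have e2 : W.card ≤ B1.card + B2.card + B3.card + B4.card := by
    have hsub : W ⊆ ((B1 ∪ B2) ∪ B3) ∪ B4 := by
      intro w hw
      simp only [Finset.mem_union, hB1, hB2, hB3, hB4, Finset.mem_filter]
      by_cases h1 : w ∈ N
      · rcases Nat.lt_or_ge (S G c w).card 3 with h2 | h2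
        · rcases Nat.lt_or_ge (S G c w).card 2 with h3 | h3
          · exact Or.inl (Or.inl (Or.inl ⟨hw, h1, by omega⟩))
          · exact Or.inl (Or.inl (Or.inr ⟨hw, h1, by omega⟩))
        · exact Or.inl (Or.inr ⟨hw, h2⟩)
      · rcases Nat.lt_or_ge (S G c w).card 3 with h2 | h2
        · exact Or.inr ⟨hw, h1, by omega⟩
        · exact Or.inl (Or.inr ⟨hw, h2⟩)
    have h1 := Finset.card_le_card hsub
    have h2 := Finset.card_union_le ((B1 ∪ B2) ∪ B3) B4
    have h3 := Finset.card_union_le (B1 ∪ B2) B3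
    have h4 := Finset.card_union_le B1 B2
    omega
  -- (3) leaves of the second kind
  have hSsingle : ∀ x, c0 ∈ S G c x → (S G c x).card ≤ 1 → S G c x = {c0} := by
    intro x h1 h2
    rw [Finset.card_le_one] at h2
    ext i
    rw [Finset.mem_singleton]
    exact ⟨fun hi => h2 i hi c0 h1, fun hi => hi ▸ h1⟩
  have hc0S : ∀ x, c0 ∈ S G c x → c x ≠ c0 := fun x h e => hcS x (e ▸ h)
  have hA1 : ∀ x ∈ LA, S G c x = {c0} := by
    intro x hx
    rw [hLA, Finset.mem_filter, hmL] at hx
    refine hSsingle x hx.2.2 ?_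
    have := S_card_le G c x
    omega
  have hB1' : ∀ x ∈ B1, S G c x = {c0} := by
    intro x hx
    rw [hB1, Finset.mem_filter] at hx
    exact hSsingle x (hWS x hx.1) hx.2.2
  have e3 : LA.card + B1.card ≤ k - 1 := by
    have hdisj : Disjoint LA B1 := by
      rw [Finset.disjoint_left]
      intro x hx hx'
      rw [hLA, Finset.mem_filter, hmL] at hx
      have hxS := hB1' x hx'
      rw [hB1, Finset.mem_filter] at hx'
      have h1 := hWN x hx'.1 hx'.2.1
      rw [hxS, Finset.card_singleton] at h1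
      omega
    rw [← Finset.card_union_of_disjoint hdisj]
    have h1 : (LA ∪ B1).card ≤ ((Finset.univ : Finset (Fin k)).erase c0).card := by
      have hS0 : ∀ x ∈ LA ∪ B1, S G c x = {c0} := by
        intro x hx
        rw [Finset.mem_union] at hx
        exact hx.elim (hA1 x) (hB1' x)
      apply Finset.card_le_card_of_injOn c
      · intro x hx
        rw [Finset.mem_coe] at hx
        have h1 := hS0 x hx
        rw [Finset.mem_coe, Finset.mem_erase]
        exact ⟨hc0S x (by rw [h1]; simp), Finset.mem_univ _⟩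
      · intro x hx y hy hxy
        exact hinj x y hxy (by rw [hS0 x hx, hS0 y hy])
    rw [Finset.card_erase_of_mem (Finset.mem_univ _), Finset.card_univ, Fintype.card_fin] at h1
    exact h1
  -- (4) leaves of the third kind
  have e4 : LC.card ≤ (k - 1) * (k - 2) := by
    rw [← pairs_card' c0]
    apply Finset.card_le_card_of_injOn (fun x => (c x, c (nb x)))
    · intro x hx
      rw [Finset.mem_coe, hLC, Finset.mem_filter, hmL] at hx
      rw [Finset.mem_coe, Finset.mem_filter]
      refine ⟨Finset.mem_univ _, hx.2.1, ?_, (hp x (nb x) (hnb x)).symm⟩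
      intro e
      apply hx.2.2
      rw [mem_S]
      exact ⟨nb x, hnb x, e⟩
    · intro x hx y hy hxy
      rw [Finset.mem_coe, hLC, Finset.mem_filter, hmL] at hx hy
      have h1 := Prod.mk.inj hxy
      apply hinj x y h1.1
      rw [hleafS x (nb x) hx.1.2 (hnb x), hleafS y (nb y) hy.1.2 (hnb y), h1.2]
  -- (5) all leaves
  have e5 : L.card ≤ LA.card + LB.card + LC.card := by
    have hsub : L ⊆ (LA ∪ LB) ∪ LC := by
      intro x hx
      simp only [Finset.mem_union, hLA, hLB, hLC, Finset.mem_filter]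
      by_cases h1 : c x = c0
      · exact Or.inl (Or.inr ⟨hx, h1⟩)
      · by_cases h2 : c0 ∈ S G c x
        · exact Or.inl (Or.inl ⟨hx, h1, h2⟩)
        · exact Or.inr ⟨hx, h1, h2⟩
    have h1 := Finset.card_le_card hsub
    have h2 := Finset.card_union_le (LA ∪ LB) LC
    have h3 := Finset.card_union_le LA LB
    omega
  -- (6) the neighbours of `v` and `B4`
  have e6 : P.card ≤ (k - 1) * (k - 1) := by
    have hex : ∀ x : V, ∃ z : Fin k, x ∈ P → (z ≠ c x ∧ S G c x = {c0, z}) := by
      intro x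
      by_cases hx : x ∈ P
      · rw [hP, Finset.mem_filter] at hx
        by_cases h1 : ∃ z ∈ S G c x, z ≠ c0
        · obtain ⟨z, hz, hz0⟩ := h1
          refine ⟨z, fun _ => ⟨fun e => hcS x (e ▸ hz), ?_⟩⟩
          symm
          apply Finset.eq_of_subset_of_card_le
          · intro i hi
            rw [Finset.mem_insert, Finset.mem_singleton] at hi
            rcases hi with rfl | rfl
            · exact hx.2.1
            · exact hz
          · rw [Finset.card_pair hz0.symm]
            exact hx.2.2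
        · push Not at h1
          refine ⟨c0, fun _ => ⟨(hc0S x hx.2.1).symm, ?_⟩⟩
          ext i
          simp only [Finset.mem_insert, Finset.mem_singleton, or_self]
          exact ⟨fun hi => h1 i hi, fun hi => hi ▸ hx.2.1⟩
      · exact ⟨c x, fun h => absurd h hx⟩
    choose z hz using hex
    rw [← pairs_card c0]
    apply Finset.card_le_card_of_injOn (fun x => (c x, z x))
    · intro x hx
      rw [Finset.mem_coe] at hx
      have h1 := hz x hx
      rw [Finset.mem_coe, Finset.mem_filter]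
      rw [hP, Finset.mem_filter] at hx
      exact ⟨Finset.mem_univ _, hc0S x hx.2.1, h1.1⟩
    · intro x hx y hy hxy
      have h1 := Prod.mk.inj hxy
      apply hinj x y h1.1
      rw [(hz x hx).2, (hz y hy).2, h1.2]
  have e7 : N.card + B4.card ≤ P.card + H.card := by
    have hsub : (N \ H) ∪ B4 ⊆ P := by
      intro x hx
      rw [Finset.mem_union, Finset.mem_sdiff] at hx
      rw [hP, Finset.mem_filter]
      rcases hx with hx | hx
      · refine ⟨Finset.mem_univ _, ?_, ?_⟩
        · rw [mem_S]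
          exact ⟨v, ((hmN x).mp hx.1).symm, hc0.symm⟩
        · by_contra hcon
          apply hx.2
          rw [hH, Finset.mem_filter]
          exact ⟨hx.1, by omega⟩
      · rw [hB4, Finset.mem_filter] at hx
        exact ⟨Finset.mem_univ _, hWS x hx.1, hx.2.2⟩
    have hdisj : Disjoint (N \ H) B4 := by
      rw [Finset.disjoint_left]
      intro x hx hx'
      rw [hB4, Finset.mem_filter] at hx'
      exact hx'.2.1 (Finset.mem_sdiff.mp hx).1
    have h1 := Finset.card_le_card hsub
    rw [Finset.card_union_of_disjoint hdisj] at h1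
    have h2 := Finset.card_le_card_sdiff_add_card (s := N) (t := H)
    omega
  -- (7) the degree sum
  have hvN : v ∉ N := by rw [hmN]; exact SimpleGraph.irrefl G
  have hvH : v ∉ H := by
    rw [hH, Finset.mem_filter]
    exact fun h => hvN h.1
  have hvB2 : v ∉ B2 := by
    rw [hB2, Finset.mem_filter]
    exact fun h => hWv v h.1 rfl
  have hvB3 : v ∉ B3 := by
    rw [hB3, Finset.mem_filter]
    exact fun h => hWv v h.1 rfl
  have hvL : v ∉ L := by
    rw [hmL]
    exact fun h => h.1 rfl
  have hpt : ∀ x ∈ Finset.univ.erase v,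
      2 + ind H x + ind B2 x + ind B3 x ≤ G.degree x + ind L x := by
    intro x hx
    rw [Finset.mem_erase] at hx
    have h1 := hdeg1 x
    have h2 := S_card_le G c x
    have hi : ∀ A : Finset V, (x ∈ A ∧ ind A x = 1) ∨ (x ∉ A ∧ ind A x = 0) := by
      intro A
      unfold ind
      split_ifs with h
      · exact Or.inl ⟨h, rfl⟩
      · exact Or.inr ⟨h, rfl⟩
    have hHx : x ∈ H → x ∈ N ∧ 3 ≤ (S G c x).card := by
      rw [hH, Finset.mem_filter]
      exact id
    have hB2x : x ∈ B2 → x ∈ W ∧ x ∈ N ∧ (S G c x).card = 2 := by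
      rw [hB2, Finset.mem_filter]
      exact id
    have hB3x : x ∈ B3 → x ∈ W ∧ 3 ≤ (S G c x).card := by
      rw [hB3, Finset.mem_filter]
      exact id
    have hLx : G.degree x = 1 → x ∈ L := fun h => (hmL x).mpr ⟨hx.1, h⟩
    rcases hi H with ⟨a1, b1⟩ | ⟨a1, b1⟩
    · obtain ⟨c1, c2⟩ := hHx a1
      rcases hi B2 with ⟨a2, b2⟩ | ⟨a2, b2⟩
      · have := hB2x a2
        omega
      · rcases hi B3 with ⟨a3, b3⟩ | ⟨a3, b3⟩
        · obtain ⟨c3, -⟩ := hB3x a3
          have := hWN x c3 c1
          omega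
        · omega
    · rcases hi B2 with ⟨a2, b2⟩ | ⟨a2, b2⟩
      · obtain ⟨c3, c4, c5⟩ := hB2x a2
        have := hWN x c3 c4
        rcases hi B3 with ⟨a3, b3⟩ | ⟨a3, b3⟩
        · have := hB3x a3
          omega
        · omega
      · rcases hi B3 with ⟨a3, b3⟩ | ⟨a3, b3⟩
        · have := hB3x a3
          omega
        · rcases hi L with ⟨a4, b4⟩ | ⟨a4, b4⟩
          · omega
          · have : G.degree x ≠ 1 := fun h => a4 (hLx h)
            omega
  have hsum := Finset.sum_le_sum hpt
  rw [Finset.sum_add_distrib, Finset.sum_add_distrib, Finset.sum_add_distrib,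
    Finset.sum_add_distrib, sum_ind H v hvH, sum_ind B2 v hvB2, sum_ind B3 v hvB3,
    sum_ind L v hvL, Finset.sum_const, Finset.card_erase_of_mem (Finset.mem_univ _),
    Finset.card_univ, smul_eq_mul] at hsum
  have h8 := G.sum_degrees_eq_twice_card_edges
  have h9 := hG.card_edgeFinset
  have h10 := Finset.add_sum_erase Finset.univ (fun x => G.degree x) (Finset.mem_univ v)
  have h11 : N.card = G.degree v := by rw [hN, SimpleGraph.card_neighborFinset_eq_degree]
  have h12 : 1 < Fintype.card V := Fintype.one_lt_card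
  have hk2 : 2 ≤ k := by
    have h1 := hp v (nb v) (hnb v)
    have h2 : (c v : ℕ) ≠ (c (nb v) : ℕ) := fun e => h1 (Fin.ext e)
    have h3 := (c v).isLt
    have h4 := (c (nb v)).isLt
    omega
  have h13 : (k - 1) * (k - 1) = (k - 1) * (k - 2) + (k - 1) := by
    obtain ⟨j, rfl⟩ : ∃ j, k = j + 2 := ⟨k - 2, by omega⟩
    have : j + 2 - 1 = j + 1 := by omega
    rw [this, Nat.add_sub_cancel]
    ring
  omega

end Core

/-- Every tree with neighbour-locating chromatic number `k ≥ 2` has maximum degree at most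
`(k - 1)²`. -/
theorem result : ∀ k : ℕ, 2 ≤ k → ∀ (V : Type) [Fintype V] (T : SimpleGraph V), T.IsTree →
    chiNL T = k → ∀ v : V, (T.neighborSet v).ncard ≤ (k - 1) ^ 2 := by
  intro k hk V _ T hT hchi v
  classical
  have hne : {k : ℕ | ∃ c : V → Fin k, IsNL T c}.Nonempty := by
    apply Nat.nonempty_of_pos_sInf
    have : sInf {k : ℕ | ∃ c : V → Fin k, IsNL T c} = k := hchi
    omega
  obtain ⟨c, hsurj, hp, hnl⟩ : ∃ c : V → Fin k, IsNL T c := by
    have := Nat.sInf_mem hne
    have h1 : sInf {k : ℕ | ∃ c : V → Fin k, IsNL T c} = k := hchi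
    rw [h1] at this
    exact this
  have hnt : Nontrivial V := by
    obtain ⟨a, ha⟩ := hsurj ⟨0, by omega⟩
    obtain ⟨b, hb⟩ := hsurj ⟨1, by omega⟩
    refine ⟨a, b, ?_⟩
    rintro rfl
    rw [ha] at hb
    have := congrArg Fin.val hb
    simp at this
  have hSnb : ∀ x, ((S T c x : Finset (Fin k)) : Set (Fin k)) = nbColors T c x := by
    intro x
    ext i
    rw [Finset.mem_coe, mem_S]
    rfl
  have h1 := core T c hT hp (by
    intro u w huw hc he
    apply hnl u w huw hc
    rw [← hSnb, ← hSnb, he]) v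
  have h2 : (T.neighborSet v).ncard = T.degree v := by
    rw [← SimpleGraph.card_neighborFinset_eq_degree, ← Set.ncard_coe_finset]
    congr 1
    simp
  rw [h2, sq]
  exact h1

end Pool.Agent.Results.MP_16ddc9_co.TreeDegree
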